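import Pool.Agent.H407Z.KMain

set_option autoImplicit false

namespace Pool.Agent.Results.MP_1453e0_an.NotEquivalent

open Pool.Agent.H407Z.KConv

/-- For every `C > 0` there are a dimension `n` and a symmetric convex body `K` in `ℝ ^ n` with
`MM*(K) ≤ 2` and `C · MM*(K) < 𝐊(X_K)`: the K-convexity constant is not bounded by a universal
multiple of the `MM*` product. -/
theorem result : ∀ C : ℝ, 0 < C → ∃ (n : ℕ) (K : Set (E n)), 0 < n ∧ IsSymmBody K ∧
    mmStar K ≤ 2 ∧ ENNReal.ofReal (C * mmStar K) < kConv K := by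
  intro C hC
  obtain ⟨s, hs⟩ := exists_nat_gt (8 * C)
  have hs0 : (0 : ℝ) < s := by linarith
  obtain ⟨K, hK, h1, h2⟩ := main s (by exact_mod_cast hs0)
  refine ⟨_, K, by positivity, hK, h1, lt_of_lt_of_le ?_ h2⟩
  rw [ENNReal.ofReal_lt_ofReal_iff (by positivity)]
  nlinarith

end Pool.Agent.Results.MP_1453e0_an.NotEquivalent
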